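import Pool.Agent.TH265.U.Fld
set_option autoImplicit false

/-!
The curves `(1 - y^(p+1)) ∏_{i ≤ r} (1 - x / α_i) = 1` with units `α_i` and the symbols on them.
-/

namespace Pool.Agent.TH265.V

open Pool.Agent.TH826.MK (Torus KQ symb Unramified unitPart val_le_one_of_integral
  mem_unitPart_of_oneUnit' mem_unitPart_of_pow)
open Pool.Agent.TH826.MH
open Pool.Agent.TH265.U (Loc toLoc isUnit_toLoc rr prod_roots val_pow_sub_one_lt val_prod_sub_lt)

open scoped WithZero

section Data

variable {K : Type*} [Field K]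

/-- The roots: `ζ^j`, `0 ≤ j ≤ p`, for the variable `y`, and `α i`, `0 ≤ i ≤ r`, for the
variable `x`. -/
def rts (p : ℕ) {r : ℕ} (ζ : K) (α : Fin (r + 1) → K) : ∀ k, Fin (rr p r k + 1) → K :=
  Fin.cons (α := fun k => Fin (rr p r k + 1) → K) (fun j => ζ ^ (j : ℕ)) fun _ i => α i

/-- The coefficient `λ = - (∏_{i ≤ r} (- α i))⁻¹`. -/
def lm {r : ℕ} (α : Fin (r + 1) → K) : K := -(∏ i : Fin (r + 1), -α i)⁻¹

variable (p : ℕ) {r : ℕ} (ζ : K) (α : Fin (r + 1) → K)

/-- The coordinate ring of the curve `λ ∏_j (y - ζ^j) ∏_i (x - α i) = 1`. -/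
abbrev Crv : Type _ := CRing (lm α) (rts p ζ α)

/-- The function `x`. -/
noncomputable def fX : Crv p ζ α := fpol (lm α) (rts p ζ α) (MvPolynomial.X 1)

/-- The coordinate ring of the open part `x ≠ 0` of the curve. -/
abbrev Opn : Type _ := Loc (fX p ζ α)

/-- The unit `x`. -/
noncomputable def uX : (Opn p ζ α)ˣ := (isUnit_toLoc (fX p ζ α)).unit

/-- The unit `y - ζ^j`. -/
noncomputable def uY (j : Fin (p + 1)) : (Opn p ζ α)ˣ :=
  Units.map (toLoc (fX p ζ α) : Crv p ζ α →* Opn p ζ α)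
    (ux (lm α) (rts p ζ α) 0 j)

/-- The unit `x - α i`. -/
noncomputable def uE (i : Fin (r + 1)) : (Opn p ζ α)ˣ :=
  Units.map (toLoc (fX p ζ α) : Crv p ζ α →* Opn p ζ α)
    (ux (lm α) (rts p ζ α) 1 i)

/-- The entries of the symbol `{(y - ζ^j) / (y - ζ^(j+1)), (x - α i) / x}`. -/
noncomputable def sym (q : Fin (r + 1) × Fin p) : Fin (1 + 1) → (Opn p ζ α)ˣ :=
  ![uY p ζ α q.2.castSucc / uY p ζ α q.2.succ, uE p ζ α q.1 / uX p ζ α]

/-- The constants. -/
noncomputable def cst0 : K →+* Opn p ζ α :=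
  (toLoc (fX p ζ α)).comp ((fpol (lm α) (rts p ζ α)).comp MvPolynomial.C)

end Data

section Unram

variable {K : Type*} [Field K] {p r : ℕ} {ζ : K} {α : Fin (r + 1) → K} {L : Type*} [Field L]
  (f : Opn p ζ α →+* L)

/-- the restriction of `f` -/
noncomputable def fC : Crv p ζ α →+* L := f.comp (toLoc (fX p ζ α))

/-- the image of `y` -/
noncomputable def yL : L := xL (fC f) 0

/-- the image of `x` -/
noncomputable def xxL : L := xL (fC f) 1

/-- the images of the constants -/
noncomputable def cL : K →+* L := cst (fC f)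

theorem xxL_ne_zero : xxL f ≠ 0 := ((isUnit_toLoc (fX p ζ α)).map f).ne_zero

theorem map_sym_zero (q : Fin (r + 1) × Fin p) :
    ((Units.map (f : Opn p ζ α →* L) (sym p ζ α q 0) : Lˣ) : L) =
      (yL f - cL f ζ ^ (q.2 : ℕ)) / (yL f - cL f ζ ^ ((q.2 : ℕ) + 1)) := by
  have h : sym p ζ α q 0 = uY p ζ α q.2.castSucc / uY p ζ α q.2.succ := rfl
  rw [h, map_div, Units.val_div_eq_div_val]
  have h1 : ∀ j : Fin (p + 1), ((Units.map (f : Opn p ζ α →* L) (uY p ζ α j) : Lˣ) : L) =
      yL f - cL f ζ ^ (j : ℕ) := by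
    intro j
    have h2 := map_fx (fC f) (0 : Fin (1 + 1)) (rts p ζ α 0 j)
    have h3 : cst (fC f) (rts p ζ α 0 j) = cL f ζ ^ (j : ℕ) := by
      show cst (fC f) (ζ ^ (j : ℕ)) = _
      rw [map_pow]
      rfl
    rw [h3] at h2
    exact h2
  rw [h1, h1]
  rfl

theorem map_sym_one (q : Fin (r + 1) × Fin p) :
    ((Units.map (f : Opn p ζ α →* L) (sym p ζ α q 1) : Lˣ) : L) =
      (xxL f - cL f (α q.1)) / xxL f := by
  have h : sym p ζ α q 1 = uE p ζ α q.1 / uX p ζ α := rfl
  rw [h, map_div, Units.val_div_eq_div_val]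
  have h1 : ((Units.map (f : Opn p ζ α →* L) (uE p ζ α q.1) : Lˣ) : L) =
      xxL f - cL f (α q.1) := by
    have h2 := map_fx (fC f) (1 : Fin (1 + 1)) (rts p ζ α 1 q.1)
    have h3 : cst (fC f) (rts p ζ α 1 q.1) = cL f (α q.1) := rfl
    rw [h3] at h2
    exact h2
  rw [h1]
  rfl

theorem prod_eq : cL f (lm α) * ((∏ j : Fin (p + 1), (yL f - cL f ζ ^ (j : ℕ))) *
    ∏ i : Fin (r + 1), (xxL f - cL f (α i))) = 1 := by
  have h := prod_xL (fC f)
  rw [Fin.prod_univ_two] at h
  have h0 : ∏ i, (xL (fC f) 0 - cst (fC f) (rts p ζ α 0 i)) =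
      ∏ j : Fin (p + 1), (yL f - cL f ζ ^ (j : ℕ)) := by
    refine Finset.prod_congr rfl fun j _ => ?_
    show yL f - cst (fC f) (ζ ^ (j : ℕ)) = _
    rw [map_pow]
    rfl
  have h1 : ∏ i, (xL (fC f) 1 - cst (fC f) (rts p ζ α 1 i)) =
      ∏ i : Fin (r + 1), (xxL f - cL f (α i)) := by
    refine Finset.prod_congr rfl fun j _ => ?_
    rfl
  rw [h0, h1] at h
  exact h

theorem eqn_eq (hζ : IsPrimitiveRoot ζ (p + 1)) (he0 : ∀ i, α i ≠ 0) :
    eqn (lm α) (rts p ζ α) = (1 - MvPolynomial.X 0 ^ (p + 1)) *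
      ∏ i : Fin (r + 1), (1 - MvPolynomial.C (α i)⁻¹ * MvPolynomial.X 1) - 1 := by
  have hζC : IsPrimitiveRoot (MvPolynomial.C ζ : MvPolynomial (Fin (1 + 1)) K) (p + 1) :=
    hζ.map_of_injective (MvPolynomial.C_injective _ _)
  have h1 := prod_roots hζC (MvPolynomial.X 0 : MvPolynomial (Fin (1 + 1)) K)
  have h2 : ∏ i : Fin (r + 1), (1 - MvPolynomial.C (α i)⁻¹ * MvPolynomial.X 1 :
      MvPolynomial (Fin (1 + 1)) K) = MvPolynomial.C (∏ i : Fin (r + 1), -α i)⁻¹ *
        ∏ i : Fin (r + 1), (MvPolynomial.X 1 - MvPolynomial.C (α i)) := by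
    rw [← Finset.prod_inv_distrib, map_prod, ← Finset.prod_mul_distrib]
    refine Finset.prod_congr rfl fun i _ => ?_
    have h3 : (MvPolynomial.C (α i)⁻¹ * MvPolynomial.C (α i) :
        MvPolynomial (Fin (1 + 1)) K) = 1 := by
      rw [← map_mul, inv_mul_cancel₀ (he0 i), map_one]
    rw [inv_neg, map_neg]
    linear_combination -h3
  unfold eqn
  rw [Fin.prod_univ_two, h2]
  have h4 : ∏ j, (MvPolynomial.X 0 - MvPolynomial.C (rts p ζ α 0 j) :
      MvPolynomial (Fin (1 + 1)) K) = MvPolynomial.X 0 ^ (p + 1) - 1 := by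
    rw [← h1]
    refine Finset.prod_congr rfl fun j _ => ?_
    show MvPolynomial.X 0 - MvPolynomial.C (ζ ^ (j : ℕ)) = _
    rw [map_pow]
  have h5 : ∏ i, (MvPolynomial.X 1 - MvPolynomial.C (rts p ζ α 1 i) :
      MvPolynomial (Fin (1 + 1)) K) =
      ∏ i : Fin (r + 1), (MvPolynomial.X 1 - MvPolynomial.C (α i)) := rfl
  rw [h4, h5]
  unfold lm
  rw [map_neg]
  ring

/-- The symbols are unramified at all discrete valuations. -/
theorem sym_mem_unitPart (hζ : IsPrimitiveRoot ζ (p + 1)) (he : ∀ i, IsIntegral ℤ (α i))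
    (he' : ∀ i, IsIntegral ℤ (α i)⁻¹) (he0 : ∀ i, α i ≠ 0)
    (v : Valuation L ℤᵐ⁰) (q : Fin (r + 1) × Fin p) :
    symb (fun l => Units.map (f : Opn p ζ α →* L) (sym p ζ α q l)) ∈ unitPart v (1 + 1) := by
  have hc : ∀ c : K, IsIntegral ℤ c → v (cL f c) ≤ 1 := fun c hc =>
    val_le_one_of_integral v (map_isIntegral_int _ hc)
  have hζi : IsIntegral ℤ ζ := hζ.isIntegral (Nat.succ_pos p)
  have hζ1 : v (cL f ζ) = 1 := by
    have h1 : (v (cL f ζ)) ^ (p + 1) = 1 := by
      rw [← map_pow, ← map_pow, hζ.pow_eq_one, map_one, map_one]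
    exact (pow_eq_one_iff_of_nonneg zero_le (Nat.succ_ne_zero p)).1 h1
  have he1 : ∀ i, v (cL f (α i)) = 1 := by
    intro i
    refine le_antisymm (hc _ (he i)) ?_
    have h1 : v (cL f (α i)) * v (cL f (α i)⁻¹) = 1 := by
      rw [← map_mul, ← map_mul, mul_inv_cancel₀ (he0 i), map_one, map_one]
    rw [← h1]
    exact mul_le_of_le_one_right' (hc _ (he' i))
  have hlam1 : v (cL f (lm α)) = 1 := by
    unfold lm
    rw [map_neg, Valuation.map_neg, map_inv₀, map_inv₀, map_prod, map_prod,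
      Finset.prod_eq_one, inv_one]
    intro i _
    rw [map_neg, Valuation.map_neg, he1]
  have hy1 : ∀ j : ℕ, v (cL f ζ ^ j) = 1 := fun j => by rw [map_pow, hζ1, one_pow]
  have hx1 : ∀ j, v (cL f (α j)) = 1 := he1
  have hprod := prod_eq f
  have hx0 := xxL_ne_zero f
  have hy0 : ∀ j : Fin (p + 1), yL f - cL f ζ ^ (j : ℕ) ≠ 0 := by
    intro j h
    rw [Finset.prod_eq_zero (Finset.mem_univ j) h, zero_mul, mul_zero] at hprod
    exact zero_ne_one hprod
  by_cases hA : 1 < v (yL f)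
  · refine mem_unitPart_of_oneUnit' v 0 _ ?_
    have h0 := hy0 q.2.succ
    rw [Fin.val_succ] at h0
    rw [map_sym_zero, div_sub_one h0, map_div₀]
    have h1 : v (yL f - cL f ζ ^ ((q.2 : ℕ) + 1)) = v (yL f) :=
      Valuation.map_sub_eq_of_lt_left v ((hy1 _).le.trans_lt hA)
    have h2 : v (yL f - cL f ζ ^ (q.2 : ℕ) - (yL f - cL f ζ ^ ((q.2 : ℕ) + 1))) ≤ 1 := by
      have e2 : yL f - cL f ζ ^ (q.2 : ℕ) - (yL f - cL f ζ ^ ((q.2 : ℕ) + 1)) =
        cL f ζ ^ ((q.2 : ℕ) + 1) - cL f ζ ^ (q.2 : ℕ) := by ring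
      rw [e2]
      exact (v.map_sub _ _).trans (max_le (hy1 _).le (hy1 _).le)
    rw [h1, div_lt_one₀ (zero_lt_one.trans hA)]
    exact h2.trans_lt hA
  · by_cases hB : 1 < v (xxL f)
    · refine mem_unitPart_of_oneUnit' v 1 _ ?_
      have e2 : (xxL f - cL f (α q.1)) / xxL f - 1 = -(cL f (α q.1)) / xxL f := by
        field_simp
        ring
      rw [map_sym_one, e2, map_div₀, Valuation.map_neg, hx1, div_lt_one₀ (zero_lt_one.trans hB)]
      exact hB
    · rw [not_lt] at hA hB
      have hys : ∀ j : ℕ, v (yL f - cL f ζ ^ j) ≤ 1 := fun j =>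
        (v.map_sub _ _).trans (max_le hA (hy1 j).le)
      have hxs : ∀ j, v (xxL f - cL f (α j)) ≤ 1 := fun j =>
        (v.map_sub _ _).trans (max_le hB (hx1 j).le)
      have hone := congrArg v hprod
      rw [map_mul, map_mul, hlam1, one_mul, map_one, map_prod, map_prod] at hone
      have hle1 : ∏ j : Fin (p + 1), v (yL f - cL f ζ ^ (j : ℕ)) ≤ 1 :=
        Finset.prod_le_one' fun j _ => hys j
      have hle2 : ∏ i : Fin (r + 1), v (xxL f - cL f (α i)) ≤ 1 :=
        Finset.prod_le_one' fun j _ => hxs j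
      have hP1 : ∏ j : Fin (p + 1), v (yL f - cL f ζ ^ (j : ℕ)) = 1 := by
        refine le_antisymm hle1 ?_
        rw [← hone]
        exact mul_le_of_le_one_right' hle2
      have hP2 : ∏ i : Fin (r + 1), v (xxL f - cL f (α i)) = 1 := by
        refine le_antisymm hle2 ?_
        rw [← hone]
        exact mul_le_of_le_one_left' hle1
      have hyv : ∀ j : Fin (p + 1), v (yL f - cL f ζ ^ (j : ℕ)) = 1 := by
        intro j
        refine le_antisymm (hys j) ?_
        rw [← hP1, ← Finset.mul_prod_erase _ _ (Finset.mem_univ j)]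
        exact mul_le_of_le_one_right' (Finset.prod_le_one' fun j _ => hys j)
      have hxv : ∀ j : Fin (r + 1), v (xxL f - cL f (α j)) = 1 := by
        intro j
        refine le_antisymm (hxs j) ?_
        rw [← hP2, ← Finset.mul_prod_erase _ _ (Finset.mem_univ j)]
        exact mul_le_of_le_one_right' (Finset.prod_le_one' fun j _ => hxs j)
      have hyc := hyv q.2.castSucc
      have hyss := hyv q.2.succ
      rw [Fin.val_castSucc] at hyc
      rw [Fin.val_succ] at hyss
      rcases hB.lt_or_eq with hB1 | hB1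
      · -- `x` is in the maximal ideal
        have hcong := val_prod_sub_lt hB1 Finset.univ (fun i : Fin (r + 1) => cL f (α i))
          (fun i => (hx1 i).le)
        set P : L := ∏ i : Fin (r + 1), (xxL f - cL f (α i)) with hP
        set Q : L := ∏ i : Fin (r + 1), -cL f (α i) with hQ
        have hQ0 : Q ≠ 0 := by
          rw [hQ]
          exact Finset.prod_ne_zero_iff.2 fun i _ => neg_ne_zero.2 ((map_ne_zero _).2 (he0 i))
        have hlm : cL f (lm α) = -Q⁻¹ := by
          unfold lm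
          rw [map_neg, map_inv₀, map_prod, hQ]
          congr 2
          refine Finset.prod_congr rfl fun i _ => ?_
          rw [map_neg]
        have hζL : IsPrimitiveRoot (cL f ζ) (p + 1) := hζ.map_of_injective (cL f).injective
        have hN : ∏ j : Fin (p + 1), (yL f - cL f ζ ^ (j : ℕ)) = yL f ^ (p + 1) - 1 := by
          exact prod_roots hζL (yL f)
        have hQv : v Q = 1 := by
          rw [hQ, map_prod]
          exact Finset.prod_eq_one fun i _ => by rw [Valuation.map_neg, hx1]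
        rw [hN, hlm] at hprod
        have hP0 : P ≠ 0 := by
          rintro e2
          rw [e2] at hprod
          simp at hprod
        have hyN : yL f ^ (p + 1) = (P - Q) / P := by
          field_simp
          have h3 : -Q⁻¹ * ((yL f ^ (p + 1) - 1) * P) * Q = 1 * Q := by rw [hprod]
          have h4 : (yL f ^ (p + 1) - 1) * P * (-(Q⁻¹ * Q)) = Q := by linear_combination h3
          rw [inv_mul_cancel₀ hQ0] at h4
          linear_combination -h4
        have hPv : v P = 1 := by rw [hP, map_prod]; exact hP2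
        have hyv1 : v (yL f) < 1 := by
          have h1 : v (yL f) ^ (p + 1) < 1 := by
            rw [← map_pow, hyN, map_div₀, hPv, div_one]
            exact hcong
          by_contra hcon
          exact absurd h1 (not_lt.2 (one_le_pow_of_one_le' (not_lt.1 hcon) _))
        refine mem_unitPart_of_pow v 0 (m := p + 1) _ (Nat.succ_ne_zero p) ?_
        rw [map_sym_zero]
        have hz0 : cL f ζ ≠ 0 := (map_ne_zero _).2 (hζ.ne_zero (Nat.succ_ne_zero p))
        have hd0 := hy0 q.2.succ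
        rw [Fin.val_succ] at hd0
        set w : L := (yL f - cL f ζ ^ (q.2 : ℕ)) / (yL f - cL f ζ ^ ((q.2 : ℕ) + 1)) with hw
        have hw1 : v (cL f ζ * w - 1) < 1 := by
          have e3 : cL f ζ * w - 1 = (cL f ζ - 1) * yL f /
              (yL f - cL f ζ ^ ((q.2 : ℕ) + 1)) := by
            rw [hw]
            field_simp
            ring
          rw [e3, map_div₀, hyss, div_one, map_mul, mul_comm]
          refine mul_lt_one_of_lt_of_le hyv1 ?_
          exact (v.map_sub _ _).trans (max_le hζ1.le (by rw [map_one]))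
        have h5 := val_pow_sub_one_lt hw1 (p + 1)
        rwa [mul_pow, ← map_pow, hζ.pow_eq_one, map_one, one_mul] at h5
      · refine Submodule.subset_span ⟨_, fun l => ?_, rfl⟩
        refine Fin.cases ?_ (fun l => ?_) l
        · rw [map_sym_zero, map_div₀, hyc, hyss, div_one]
        · have hl : l.succ = (1 : Fin (1 + 1)) := by
            have := Fin.fin_one_eq_zero l
            subst this
            rfl
          rw [hl, map_sym_one, map_div₀, hxv, hB1, div_one]

theorem sym_mem_unramified (hζ : IsPrimitiveRoot ζ (p + 1)) (he : ∀ i, IsIntegral ℤ (α i))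
    (he' : ∀ i, IsIntegral ℤ (α i)⁻¹) (he0 : ∀ i, α i ≠ 0) (q : Fin (r + 1) × Fin p) :
    KQ.map (1 + 1) f (symb (sym p ζ α q)) ∈ Unramified L (1 + 1) := by
  rw [KQ.map_symb]
  unfold Unramified
  simp only [Submodule.mem_iInf]
  intro v _
  exact sym_mem_unitPart f hζ he he' he0 v q

end Unram

end Pool.Agent.TH265.V
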