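import Pool.Agent.TH265.V.Loop
set_option autoImplicit false

/-!
Nonvanishing of the determinant of the regulators.
-/

namespace Pool.Agent.TH265.V

open Pool.Agent.TH826.MK
open Pool.Agent.TH826.MH (wt abs_wt_le wt_self wt_ne)

universe v

theorem exists_unif (p r : ℕ) (d : ℝ) : ∃ D0 B : ℝ, 0 ≤ D0 ∧ 0 ≤ B ∧
    ∀ {K : Type v} [Field K] (σ : K →+* ℂ) (ζ : K) (α : Fin (r + 1) → K)
      (i0 : Fin (r + 1)), IsPrimitiveRoot ζ (p + 1) → Sep d (fun i => σ (α i)) i0 →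
      |Real.log ‖σ (α i0)‖| ≤ Dd (fun i => σ (α i)) i0 → D0 ≤ Dd (fun i => σ (α i)) i0 →
      ∀ j0 : Fin p, ∃ Γ : Torus (Opn p ζ α) 1,
        (∀ θ x, Γ.e θ (cst0 p ζ α x) = σ x) ∧
        ∀ q : Fin (r + 1) × Fin p, |Γ.reg (symb (sym p ζ α q)) -
          2 * Real.pi * (wt j0 q.2 *
            (if q.1 = i0 then -Dd (fun i => σ (α i)) i0 else 0))| ≤ B := by
  classical
  choose L B h using fun (ω : {ω : ℂ // IsPrimitiveRoot ω (p + 1)}) (j0 : Fin p) =>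
    exists_loop.{v} p r ω.1 ω.2 d j0
  have hfin : Finite {ω : ℂ // IsPrimitiveRoot ω (p + 1)} := by
    have : {ω : ℂ | IsPrimitiveRoot ω (p + 1)} ⊆ (primitiveRoots (p + 1) ℂ : Set ℂ) := by
      intro ω hω
      exact (mem_primitiveRoots (Nat.succ_pos p)).2 hω
    exact ((primitiveRoots (p + 1) ℂ).finite_toSet.subset this).to_subtype
  have := Fintype.ofFinite {ω : ℂ // IsPrimitiveRoot ω (p + 1)}
  refine ⟨∑ ω, ∑ j, |L ω j|, ∑ ω, ∑ j, |B ω j|,
    Finset.sum_nonneg fun _ _ => Finset.sum_nonneg fun _ _ => abs_nonneg _,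
    Finset.sum_nonneg fun _ _ => Finset.sum_nonneg fun _ _ => abs_nonneg _, ?_⟩
  intro K _ σ ζ α i0 hζ hS hm hD j0
  have hω : IsPrimitiveRoot (σ ζ) (p + 1) := hζ.map_of_injective σ.injective
  have key : ∀ f : {ω : ℂ // IsPrimitiveRoot ω (p + 1)} → Fin p → ℝ,
      f ⟨σ ζ, hω⟩ j0 ≤ ∑ ω, ∑ j, |f ω j| := by
    intro f
    have h1 : |f ⟨σ ζ, hω⟩ j0| ≤ ∑ j, |f ⟨σ ζ, hω⟩ j| :=
      Finset.single_le_sum (f := fun j => |f ⟨σ ζ, hω⟩ j|) (fun j _ => abs_nonneg _)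
        (Finset.mem_univ j0)
    have h2 : ∑ j, |f ⟨σ ζ, hω⟩ j| ≤ ∑ ω, ∑ j, |f ω j| :=
      Finset.single_le_sum (f := fun ω => ∑ j, |f ω j|)
        (fun ω _ => Finset.sum_nonneg fun j _ => abs_nonneg _) (Finset.mem_univ _)
    exact (le_abs_self _).trans (h1.trans h2)
  obtain ⟨Γ, hΓ1, hΓ2⟩ := h ⟨σ ζ, hω⟩ j0 σ ζ α i0 rfl hS hm ((key L).trans hD)
  exact ⟨Γ, hΓ1, fun q => (hΓ2 q).trans (key B)⟩

/-- The determinant does not vanish if every root is the greatest one, well separated from the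
other ones, at some place. -/
theorem exists_det (p r : ℕ) (d : ℝ) : ∃ D1 : ℝ, 0 < D1 ∧
    ∀ {K : Type v} [Field K] (ζ : K) (α : Fin (r + 1) → K) (pl : Fin (r + 1) → (K →+* ℂ)),
      IsPrimitiveRoot ζ (p + 1) → (∀ i, Sep d (fun k => pl i (α k)) i) →
      (∀ i, |Real.log ‖pl i (α i)‖| ≤ Dd (fun k => pl i (α k)) i) →
      (∀ i, D1 ≤ Dd (fun k => pl i (α k)) i) →
      ∃ Γ : Fin (r + 1) × Fin p → Torus (Opn p ζ α) 1,
        (∀ t θ x, (Γ t).e θ (cst0 p ζ α x) = pl t.1 x) ∧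
        (Matrix.of fun t q => (Γ t).reg (symb (sym p ζ α q))).det ≠ 0 := by
  classical
  obtain ⟨L0, B0, hL0, hB0, h⟩ := exists_unif.{v} p r d
  set n : ℕ := Fintype.card (Fin (r + 1) × Fin p) with hn
  set S : ℝ := n + n.factorial * (2 : ℝ) ^ n with hS
  have hS0 : 0 < S := by
    have : 0 < (n.factorial : ℝ) * 2 ^ n := by
      have := Nat.factorial_pos n
      positivity
    have h2 : 0 ≤ (n : ℝ) := Nat.cast_nonneg n
    rw [hS]
    linarith
  set δ : ℝ := 1 / (S + 1) with hδdef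
  have hδ : 0 < δ := by rw [hδdef]; positivity
  have hδ1 : δ ≤ 1 := by
    rw [hδdef, div_le_one (by positivity)]
    linarith
  have hsmall : (n : ℝ) * δ + (n.factorial * (2 : ℝ) ^ n) * δ < 1 := by
    rw [← add_mul, ← hS, hδdef, mul_one_div, div_lt_one (by positivity)]
    linarith
  have hBδ : 0 ≤ B0 / δ := by positivity
  refine ⟨L0 + B0 / δ + 1, by linarith, ?_⟩
  intro K _ ζ α pl hζ hSep hm hD
  have hpi := Real.pi_gt_three
  choose Γ hΓ1 hΓ2 using fun t : Fin (r + 1) × Fin p =>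
    h (pl t.1) ζ α t.1 hζ (hSep t.1) (hm t.1) (by linarith [hD t.1]) t.2
  refine ⟨Γ, fun t => hΓ1 t, ?_⟩
  set E : Fin (r + 1) × Fin p → ℝ := fun t => 2 * Real.pi * Dd (fun k => pl t.1 (α k)) t.1
    with hE
  have hEΛ : ∀ t, L0 + B0 / δ + 1 ≤ E t := by
    intro t
    have h1 := hD t.1
    simp only [hE]
    nlinarith
  have hEp : ∀ t, 0 < E t := fun t => by linarith [hEΛ t]
  have hEB : ∀ t, B0 ≤ δ * E t := by
    intro t
    have : B0 / δ ≤ E t := by linarith [hEΛ t]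
    rw [div_le_iff₀ hδ] at this
    linarith
  have hneg : (Matrix.of fun t q => -(Γ t).reg (symb (sym p ζ α q))).det ≠ 0 := by
    refine det_ne_zero_of_near (fun q => p - (q.2 : ℕ)) (le_refl 2) hδ hδ1 hsmall _ E
      hEp ?_ ?_ ?_
    · intro t
      have h1 := hΓ2 t t
      rw [wt_self, one_mul, if_pos rfl] at h1
      show |-(Γ t).reg (symb (sym p ζ α t)) - E t| ≤ δ * E t
      have e : -(Γ t).reg (symb (sym p ζ α t)) - E t =
          -((Γ t).reg (symb (sym p ζ α t)) -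
            2 * Real.pi * -Dd (fun k => pl t.1 (α k)) t.1) := by
        simp only [hE]
        ring
      rw [e, abs_neg]
      exact h1.trans (hEB t)
    · intro t q hne hh
      have h0 : wt t.2 q.2 * (if q.1 = t.1 then -Dd (fun k => pl t.1 (α k)) t.1 else 0) = 0 := by
        by_cases h1 : q.1 = t.1
        · have hw : wt t.2 q.2 = 0 := by
            by_contra hw
            rcases wt_ne hw with h3 | h3
            · exact hne (Prod.ext h1 h3)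
            · have h4 := t.2.isLt
              have hh' : p - (q.2 : ℕ) ≤ p - (t.2 : ℕ) := hh
              omega
          rw [hw, zero_mul]
        · rw [if_neg h1, mul_zero]
      have h1 := hΓ2 t q
      rw [h0, mul_zero, sub_zero] at h1
      show |-(Γ t).reg (symb (sym p ζ α q))| ≤ δ * E t
      rw [abs_neg]
      exact h1.trans (hEB t)
    · intro t q _
      have h1 := hΓ2 t q
      have h4 : |2 * Real.pi * (wt t.2 q.2 *
          (if q.1 = t.1 then -Dd (fun k => pl t.1 (α k)) t.1 else 0))| ≤ E t := by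
        rw [abs_mul, abs_of_pos (by positivity : (0 : ℝ) < 2 * Real.pi), abs_mul]
        have h5 : |(if q.1 = t.1 then -Dd (fun k => pl t.1 (α k)) t.1 else 0)| ≤
            Dd (fun k => pl t.1 (α k)) t.1 := by
          have h6 := (hSep t.1).Dd_nonneg
          split_ifs
          · rw [abs_neg, abs_of_nonneg h6]
          · rw [abs_zero]; exact h6
        calc 2 * Real.pi * (|wt t.2 q.2| *
              |(if q.1 = t.1 then -Dd (fun k => pl t.1 (α k)) t.1 else 0)|) ≤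
            2 * Real.pi * (1 * Dd (fun k => pl t.1 (α k)) t.1) := by
              refine mul_le_mul_of_nonneg_left ?_ (by positivity)
              exact mul_le_mul (abs_wt_le _ _) h5 (abs_nonneg _) zero_le_one
          _ = E t := by simp only [hE]; ring
      show |-(Γ t).reg (symb (sym p ζ α q))| ≤ 2 * E t
      rw [abs_neg]
      have c1 := abs_le.1 h1
      have c4 := abs_le.1 h4
      have h7 := hEB t
      have h8 : δ * E t ≤ 1 * E t := mul_le_mul_of_nonneg_right hδ1 (hEp t).le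
      rw [abs_le]
      constructor <;> linarith [c1.1, c1.2, c4.1, c4.2]
  have e : (Matrix.of fun t q => -(Γ t).reg (symb (sym p ζ α q))) =
      -(Matrix.of fun t q => (Γ t).reg (symb (sym p ζ α q))) := by
    ext t q
    rfl
  rw [e, Matrix.det_neg] at hneg
  exact right_ne_zero_of_mul hneg

section roots

/-- the roots `ω^i`, `0 ≤ i ≤ q`, and `ω^i e`, `0 ≤ i ≤ q` -/
def al {K : Type*} [Field K] (q : ℕ) (ω e : K) (i : Fin (2 * q + 1 + 1)) : K :=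
  ω ^ (i : ℕ) * e ^ ((i : ℕ) / (q + 1))

theorem exists_sep (q : ℕ) : ∃ d : ℝ, 0 < d ∧ d ≤ 1 / 2 ∧ ∀ w : ℂ, IsPrimitiveRoot w (q + 1) →
    ∀ i j : Fin (q + 1), i ≠ j → d ≤ ‖w ^ (i : ℕ) - w ^ (j : ℕ)‖ := by
  classical
  have hfin : Finite {ω : ℂ // IsPrimitiveRoot ω (q + 1)} := by
    have : {ω : ℂ | IsPrimitiveRoot ω (q + 1)} ⊆ (primitiveRoots (q + 1) ℂ : Set ℂ) := by
      intro ω hω
      exact (mem_primitiveRoots (Nat.succ_pos q)).2 hω
    exact ((primitiveRoots (q + 1) ℂ).finite_toSet.subset this).to_subtype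
  have := Fintype.ofFinite {ω : ℂ // IsPrimitiveRoot ω (q + 1)}
  set f : {ω : ℂ // IsPrimitiveRoot ω (q + 1)} × Fin (q + 1) × Fin (q + 1) → ℝ := fun x =>
    ‖x.1.1 ^ (x.2.1 : ℕ) - x.1.1 ^ (x.2.2 : ℕ)‖⁻¹ with hf
  have hf0 : ∀ x, 0 ≤ f x := fun x => inv_nonneg.2 (norm_nonneg _)
  have hs : 0 ≤ ∑ x, f x := Finset.sum_nonneg fun x _ => hf0 x
  refine ⟨(2 + ∑ x, f x)⁻¹, by positivity, ?_, ?_⟩
  · rw [one_div]
    exact inv_anti₀ two_pos (by linarith)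
  · intro w hw i j hij
    have h1 : f ⟨⟨w, hw⟩, i, j⟩ ≤ 2 + ∑ x, f x := by
      have := Finset.single_le_sum (f := f) (fun x _ => hf0 x)
        (Finset.mem_univ (⟨⟨w, hw⟩, i, j⟩ : {ω : ℂ // IsPrimitiveRoot ω (q + 1)} ×
          Fin (q + 1) × Fin (q + 1)))
      linarith
    have h2 : 0 < ‖w ^ (i : ℕ) - w ^ (j : ℕ)‖ := by
      rw [norm_pos_iff, sub_ne_zero]
      intro h3
      exact hij (Fin.ext (hw.pow_inj i.isLt j.isLt h3))
    have h3 : ‖w ^ (i : ℕ) - w ^ (j : ℕ)‖⁻¹ ≤ 2 + ∑ x, f x := h1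
    exact inv_le_of_inv_le₀ h2 h3

variable {q : ℕ} {w u : ℂ}

theorem norm_al (hw : IsPrimitiveRoot w (q + 1)) (i : Fin (2 * q + 1 + 1)) :
    ‖al q w u i‖ = ‖u‖ ^ ((i : ℕ) / (q + 1)) := by
  unfold al
  rw [norm_mul, norm_pow, norm_pow, hw.norm'_eq_one (Nat.succ_ne_zero q), one_pow, one_mul]

theorem lev (i : Fin (2 * q + 1 + 1)) : (i : ℕ) / (q + 1) = 0 ∧ (i : ℕ) < q + 1 ∨
    (i : ℕ) / (q + 1) = 1 ∧ q + 1 ≤ (i : ℕ) := by
  have h := i.isLt
  rcases Nat.lt_or_ge (i : ℕ) (q + 1) with h1 | h1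
  · left
    exact ⟨Nat.div_eq_of_lt h1, h1⟩
  · right
    refine ⟨?_, h1⟩
    rw [Nat.div_eq_iff (by omega)]
    omega

/-- `ω^i` depends on the remainder only -/
theorem pow_mod (hw : IsPrimitiveRoot w (q + 1)) (i : ℕ) : w ^ i = w ^ (i % (q + 1)) := by
  conv_lhs => rw [← Nat.mod_add_div i (q + 1)]
  rw [pow_add, pow_mul, hw.pow_eq_one, one_pow, mul_one]

theorem sep_same {d : ℝ} (hw : IsPrimitiveRoot w (q + 1))
    (hd : ∀ i j : Fin (q + 1), i ≠ j → d ≤ ‖w ^ (i : ℕ) - w ^ (j : ℕ)‖)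
    {i j : Fin (2 * q + 1 + 1)} (hij : i ≠ j) (hl : (i : ℕ) / (q + 1) = (j : ℕ) / (q + 1)) :
    d ≤ ‖w ^ (i : ℕ) - w ^ (j : ℕ)‖ := by
  rw [pow_mod hw i, pow_mod hw j]
  refine hd ⟨(i : ℕ) % (q + 1), Nat.mod_lt _ (Nat.succ_pos q)⟩
    ⟨(j : ℕ) % (q + 1), Nat.mod_lt _ (Nat.succ_pos q)⟩ ?_
  intro h
  have h1 : (i : ℕ) % (q + 1) = (j : ℕ) % (q + 1) := congrArg Fin.val h
  apply hij
  apply Fin.ext
  rw [← Nat.mod_add_div (i : ℕ) (q + 1), ← Nat.mod_add_div (j : ℕ) (q + 1), h1, hl]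

theorem sep_low {d : ℝ} (hd0 : 0 < d) (hd1 : d ≤ 1 / 2) (hw : IsPrimitiveRoot w (q + 1))
    (hd : ∀ i j : Fin (q + 1), i ≠ j → d ≤ ‖w ^ (i : ℕ) - w ^ (j : ℕ)‖)
    (hu0 : u ≠ 0) (hu : ‖u‖ ≤ 1 / 2) {i0 : Fin (2 * q + 1 + 1)} (h0 : (i0 : ℕ) / (q + 1) = 0) :
    Sep d (al q w u) i0 := by
  have hwn : ‖w‖ = 1 := hw.norm'_eq_one (Nat.succ_ne_zero q)
  have hw0 : w ≠ 0 := hw.ne_zero (Nat.succ_ne_zero q)
  have hn0 : ‖al q w u i0‖ = 1 := by rw [norm_al hw, h0, pow_zero]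
  have hup : 0 < ‖u‖ := norm_pos_iff.2 hu0
  refine ⟨hd0, hd1, fun i => mul_ne_zero (pow_ne_zero _ hw0) (pow_ne_zero _ hu0), fun i => ?_,
    fun i hi => ?_⟩
  · rw [hn0, norm_al hw]
    exact pow_le_one₀ hup.le (by linarith)
  · rw [hn0, mul_one]
    rcases lev i with ⟨h1, -⟩ | ⟨h1, -⟩
    · unfold al
      rw [h1, h0, pow_zero, mul_one, mul_one]
      exact sep_same hw hd hi (h1.trans h0.symm)
    · have h2 := norm_sub_norm_le (al q w u i0) (al q w u i)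
      rw [hn0, norm_al hw, h1, pow_one, norm_sub_rev] at h2
      linarith

theorem sep_high {d : ℝ} (hd0 : 0 < d) (hd1 : d ≤ 1 / 2) (hw : IsPrimitiveRoot w (q + 1))
    (hd : ∀ i j : Fin (q + 1), i ≠ j → d ≤ ‖w ^ (i : ℕ) - w ^ (j : ℕ)‖)
    (hu : 2 ≤ ‖u‖) {i0 : Fin (2 * q + 1 + 1)} (h0 : (i0 : ℕ) / (q + 1) = 1) :
    Sep d (al q w u) i0 := by
  have hwn : ‖w‖ = 1 := hw.norm'_eq_one (Nat.succ_ne_zero q)
  have hw0 : w ≠ 0 := hw.ne_zero (Nat.succ_ne_zero q)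
  have hn0 : ‖al q w u i0‖ = ‖u‖ := by rw [norm_al hw, h0, pow_one]
  have hup : 0 < ‖u‖ := by linarith
  have hu0 : u ≠ 0 := norm_pos_iff.1 hup
  refine ⟨hd0, hd1, fun i => mul_ne_zero (pow_ne_zero _ hw0) (pow_ne_zero _ hu0), fun i => ?_,
    fun i hi => ?_⟩
  · rw [hn0, norm_al hw]
    rcases lev i with ⟨h1, -⟩ | ⟨h1, -⟩
    · rw [h1, pow_zero]
      linarith
    · rw [h1, pow_one]
  · rw [hn0]
    rcases lev i with ⟨h1, -⟩ | ⟨h1, -⟩
    · have h2 := norm_sub_norm_le (al q w u i0) (al q w u i)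
      rw [hn0, norm_al hw, h1, pow_zero, norm_sub_rev] at h2
      nlinarith
    · unfold al
      rw [h1, h0, pow_one, ← sub_mul, norm_mul]
      exact mul_le_mul_of_nonneg_right (sep_same hw hd hi (h1.trans h0.symm)) hup.le

theorem Dd_low {d : ℝ} (hw : IsPrimitiveRoot w (q + 1)) {i0 : Fin (2 * q + 1 + 1)}
    (h0 : (i0 : ℕ) / (q + 1) = 0) (hS : Sep d (al q w u) i0) :
    -Real.log ‖u‖ ≤ Dd (al q w u) i0 := by
  have hnn : ∀ i ∈ (Finset.univ : Finset (Fin (2 * q + 1 + 1))),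
      0 ≤ Real.log ‖al q w u i0‖ - Real.log ‖al q w u i‖ := by
    intro i _
    have := Real.log_le_log (norm_pos_iff.2 (hS.ne i)) (hS.le i)
    linarith
  have h1 : Real.log ‖al q w u i0‖ - Real.log ‖al q w u ⟨q + 1, by omega⟩‖ ≤
      Dd (al q w u) i0 :=
    Finset.single_le_sum hnn (Finset.mem_univ (⟨q + 1, by omega⟩ : Fin (2 * q + 1 + 1)))
  have h2 : ((⟨q + 1, by omega⟩ : Fin (2 * q + 1 + 1)) : ℕ) / (q + 1) = 1 := by
    show (q + 1) / (q + 1) = 1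
    exact Nat.div_self (Nat.succ_pos q)
  rw [norm_al hw, norm_al hw, h0, h2, pow_zero, pow_one, Real.log_one, zero_sub] at h1
  exact h1

theorem Dd_high {d : ℝ} (hw : IsPrimitiveRoot w (q + 1)) {i0 : Fin (2 * q + 1 + 1)}
    (h0 : (i0 : ℕ) / (q + 1) = 1) (hS : Sep d (al q w u) i0) :
    Real.log ‖u‖ ≤ Dd (al q w u) i0 := by
  have hnn : ∀ i ∈ (Finset.univ : Finset (Fin (2 * q + 1 + 1))),
      0 ≤ Real.log ‖al q w u i0‖ - Real.log ‖al q w u i‖ := by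
    intro i _
    have := Real.log_le_log (norm_pos_iff.2 (hS.ne i)) (hS.le i)
    linarith
  have h1 : Real.log ‖al q w u i0‖ - Real.log ‖al q w u ⟨0, by omega⟩‖ ≤
      Dd (al q w u) i0 :=
    Finset.single_le_sum hnn (Finset.mem_univ (⟨0, by omega⟩ : Fin (2 * q + 1 + 1)))
  have h2 : ((⟨0, by omega⟩ : Fin (2 * q + 1 + 1)) : ℕ) / (q + 1) = 0 := by
    show 0 / (q + 1) = 0
    exact Nat.zero_div _
  rw [norm_al hw, norm_al hw, h0, h2, pow_zero, pow_one, Real.log_one, sub_zero] at h1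
  exact h1

end roots

/-- The loops for the roots `ω^i`, `ω^i e`: over `τ` around the first ones, over `σ` around the
second ones. -/
theorem exists_det2 (p q : ℕ) : ∃ c : ℝ, 2 ≤ c ∧
    ∀ {K : Type v} [Field K] (σ τ : K →+* ℂ) (ζ ω e : K), IsPrimitiveRoot ζ (p + 1) →
      IsPrimitiveRoot ω (q + 1) → c ≤ ‖σ e‖ → ‖τ e‖ * c ≤ 1 →
      ∃ Γ : Fin (2 * q + 1 + 1) × Fin p → Torus (Opn p ζ (al q ω e)) 1,
        (∀ t θ x, (Γ t).e θ (cst0 p ζ (al q ω e) x) = if (t.1 : ℕ) ≤ q then τ x else σ x) ∧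
        (Matrix.of fun t s => (Γ t).reg (symb (sym p ζ (al q ω e) s))).det ≠ 0 := by
  obtain ⟨d, hd0, hd1, hd⟩ := exists_sep q
  obtain ⟨D1, hD1, h⟩ := exists_det.{v} p (2 * q + 1) d
  refine ⟨max 2 (Real.exp D1), le_max_left _ _, ?_⟩
  intro K _ σ τ ζ ω e hζ hω hσ hτ
  have hσ2 : 2 ≤ ‖σ e‖ := (le_max_left _ _).trans hσ
  have hσD : Real.exp D1 ≤ ‖σ e‖ := (le_max_right _ _).trans hσ
  have he : e ≠ 0 := by
    rintro rfl
    rw [map_zero, norm_zero] at hσ2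
    linarith
  have hτe : τ e ≠ 0 := (map_ne_zero τ).2 he
  have hτp : 0 < ‖τ e‖ := norm_pos_iff.2 hτe
  have hτ2 : ‖τ e‖ ≤ 1 / 2 := by
    have := (mul_le_mul_of_nonneg_left (le_max_left 2 (Real.exp D1)) hτp.le).trans hτ
    linarith
  have hτD : ‖τ e‖ ≤ Real.exp (-D1) := by
    have := (mul_le_mul_of_nonneg_left (le_max_right 2 (Real.exp D1)) hτp.le).trans hτ
    rw [Real.exp_neg, ← one_div, le_div_iff₀ (Real.exp_pos _)]
    exact this
  have hlσ : D1 ≤ Real.log ‖σ e‖ := by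
    have := Real.log_le_log (Real.exp_pos _) hσD
    rwa [Real.log_exp] at this
  have hlτ : D1 ≤ -Real.log ‖τ e‖ := by
    have := Real.log_le_log hτp hτD
    rw [Real.log_exp] at this
    linarith
  have hmap : ∀ v : K →+* ℂ, (fun k => v (al q ω e k)) = al q (v ω) (v e) := by
    intro v
    funext k
    unfold al
    rw [map_mul, map_pow, map_pow]
  have hωm : ∀ v : K →+* ℂ, IsPrimitiveRoot (v ω) (q + 1) := fun v =>
    hω.map_of_injective v.injective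
  set pl : Fin (2 * q + 1 + 1) → (K →+* ℂ) := fun i => if (i : ℕ) ≤ q then τ else σ with hpl
  have hcase : ∀ i : Fin (2 * q + 1 + 1), ((i : ℕ) / (q + 1) = 0 ∧ pl i = τ) ∨
      ((i : ℕ) / (q + 1) = 1 ∧ pl i = σ) := by
    intro i
    rcases lev i with ⟨h1, h2⟩ | ⟨h1, h2⟩
    · left
      refine ⟨h1, ?_⟩
      simp only [hpl]
      rw [if_pos (by omega)]
    · right
      refine ⟨h1, ?_⟩
      simp only [hpl]
      rw [if_neg (by omega)]
  have hS : ∀ i, Sep d (fun k => pl i (al q ω e k)) i := by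
    intro i
    rw [hmap]
    rcases hcase i with ⟨h1, h2⟩ | ⟨h1, h2⟩
    · rw [h2]
      exact sep_low hd0 hd1 (hωm τ) (hd _ (hωm τ)) hτe hτ2 h1
    · rw [h2]
      exact sep_high hd0 hd1 (hωm σ) (hd _ (hωm σ)) hσ2 h1
  have hval : ∀ i, |Real.log ‖pl i (al q ω e i)‖| ≤ Dd (fun k => pl i (al q ω e k)) i ∧
      D1 ≤ Dd (fun k => pl i (al q ω e k)) i := by
    intro i
    have hSi := hS i
    have e1 : pl i (al q ω e i) = al q (pl i ω) (pl i e) i := congrFun (hmap (pl i)) i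
    rw [e1, norm_al (hωm _)]
    rw [hmap] at hSi ⊢
    rcases hcase i with ⟨h1, h2⟩ | ⟨h1, h2⟩
    · rw [h2] at hSi ⊢
      have h3 := Dd_low (hωm τ) h1 hSi
      rw [h1, pow_zero, Real.log_one, abs_zero]
      exact ⟨by linarith, by linarith⟩
    · rw [h2] at hSi ⊢
      have h3 := Dd_high (hωm σ) h1 hSi
      rw [h1, pow_one, abs_of_nonneg (by linarith)]
      exact ⟨h3, by linarith⟩
  obtain ⟨Γ, hΓ1, hΓ2⟩ := h ζ (al q ω e) pl hζ hS (fun i => (hval i).1) (fun i => (hval i).2)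
  refine ⟨Γ, fun t θ x => ?_, hΓ2⟩
  rw [hΓ1]
  simp only [hpl]
  split_ifs <;> rfl

end Pool.Agent.TH265.V
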