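import Pool.Agent.TH265.V.Smo
set_option autoImplicit false

/-!
The assertions of the theorem.
-/

namespace Pool.Agent.TH265.V

open Pool.Agent.TH826.MK (KQ symb Unramified Torus)

open Pool.Agent.TH826.MH (eqn)

open Pool.Agent.TH265.U (toLoc liftLoc liftLoc_toLoc isUnit_toLoc exists_pow)

universe u v

variable {K : Type u} [Field K] (p q : ℕ)

/-- The symbols are unramified at all discrete valuations of the function field. -/
def UnramifiedSymbols {r : ℕ} (ζ : K) (α : Fin (r + 1) → K) : Prop :=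
  ∀ (L : Type v) [Field L] [Algebra (Crv p ζ α) L] [IsFractionRing (Crv p ζ α) L],
    ∃ f : Opn p ζ α →+* L, (∀ b, f (toLoc (fX p ζ α) b) = algebraMap (Crv p ζ α) L b) ∧
      ∀ s, KQ.map (1 + 1) f (symb (sym p ζ α s)) ∈ Unramified L (1 + 1)

/-- There are loops in the complex points of the curve, over the places `pl`, such that the matrix
of the regulators of the symbols has nonzero determinant. -/
def IndependentRegulators {r : ℕ} (ζ : K) (α : Fin (r + 1) → K)
    (pl : Fin (r + 1) → (K →+* ℂ)) : Prop :=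
  ∃ Γ : Fin (r + 1) × Fin p → Torus (Opn p ζ α) 1,
    (∀ t θ x, (Γ t).e θ (cst0 p ζ α x) = pl t.1 x) ∧
    (Matrix.of fun t s => (Γ t).reg (symb (sym p ζ α s))).det ≠ 0

/-- The place `τ` for the first `q + 1` indices and the place `σ` for the other ones. -/
def pls (σ τ : K →+* ℂ) (i : Fin (2 * q + 1 + 1)) : K →+* ℂ := if (i : ℕ) ≤ q then τ else σ

theorem fX_ne_zero_of_torus {r : ℕ} (ζ : K) {α : Fin (r + 1) → K} (Γ : Torus (Opn p ζ α) 1) :
    fX p ζ α ≠ 0 := by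
  intro h
  have h1 := (isUnit_toLoc (fX p ζ α)).map (Γ.e 0)
  have h2 : (toLoc (fX p ζ α)) (fX p ζ α) = 0 :=
    (congrArg (toLoc (fX p ζ α)) h).trans (map_zero _)
  rw [h2, map_zero] at h1
  exact not_isUnit_zero h1

theorem main (hp : 1 ≤ p) :
    ∃ c : ℝ, 1 < c ∧
      (∀ (K : Type u) [Field K] [NumberField K] (σ τ : K →+* ℂ) (ζ ω e : K),
        IsPrimitiveRoot ζ (p + 1) → IsPrimitiveRoot ω (q + 1) → IsIntegral ℤ e →
        IsIntegral ℤ e⁻¹ → c ≤ ‖σ e‖ → ‖τ e‖ * c ≤ 1 →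
        eqn (lm (al q ω e)) (rts p ζ (al q ω e)) = poly p q e ∧
        IsDomain (Crv p ζ (al q ω e)) ∧
        (∀ ρ : K →+* ℂ, SmoothOff (poly p q e) ρ) ∧ UnramifiedSymbols.{u, v} p ζ (al q ω e) ∧
        IndependentRegulators p ζ (al q ω e) (pls q σ τ)) ∧
      ∀ (K : Type u) [Field K] [NumberField K] (e₀ : K), IsIntegral ℤ e₀ → IsIntegral ℤ e₀⁻¹ →
        e₀ ≠ 0 → (∀ n : ℕ, 0 < n → e₀ ^ n ≠ 1) →
        ∃ (σ τ : K →+* ℂ) (M : ℕ), ∀ m ≥ M, c ≤ ‖σ (e₀ ^ m)‖ ∧ ‖τ (e₀ ^ m)‖ * c ≤ 1 := by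
  obtain ⟨c, hc, hdet⟩ := exists_det2.{u} p q
  refine ⟨c, by linarith, ?_, ?_⟩
  · intro K _ _ σ τ ζ ω e hζ hω he he' hσ hτ
    have hσ1 : 1 < ‖σ e‖ := by linarith
    have he0 : e ≠ 0 := by
      rintro rfl
      rw [map_zero, norm_zero] at hσ1
      linarith
    have hdom : IsDomain (Crv p ζ (al q ω e)) :=
      Pool.Agent.TH826.MH.isDomain_CRing (m := 0) (lm (al q ω e)) (rts p ζ (al q ω e))
        (lm_ne_zero (al_ne_zero hω he0)) (by
          intro k
          refine Fin.cases ?_ (fun l => ?_) k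
          · intro i j hij
            exact Fin.ext (hζ.pow_inj i.isLt j.isLt hij)
          · exact al_injective hω σ hσ1)
    obtain ⟨Γ, hΓ, hd⟩ := hdet σ τ ζ ω e hζ hω hσ hτ
    have hne : e ^ (q + 1) ≠ -1 := by
      intro h
      have h1 := congrArg (fun x => ‖σ x‖) h
      simp only [map_pow, norm_pow, map_neg, map_one, norm_neg, norm_one] at h1
      exact absurd h1 (one_lt_pow₀ hσ1 (Nat.succ_ne_zero q)).ne'
    refine ⟨eqn_al hζ hω he0, hdom, fun ρ => smoothOff hne ρ, ?_, Γ, fun t θ x => ?_, hd⟩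
    rotate_left
    · rw [hΓ]
      unfold pls
      split_ifs <;> rfl
    intro L _ _ _
    have hinj : Function.Injective (algebraMap (Crv p ζ (al q ω e)) L) :=
      IsFractionRing.injective _ _
    have hx1 : algebraMap (Crv p ζ (al q ω e)) L (fX p ζ (al q ω e)) ≠ 0 := by
      rw [Ne, map_eq_zero_iff _ hinj]
      exact fX_ne_zero_of_torus p ζ (Γ (0, ⟨0, hp⟩))
    have hωi : IsIntegral ℤ ω := hω.isIntegral (Nat.succ_pos q)
    have hωi' : IsIntegral ℤ ω⁻¹ := hω.inv.isIntegral (Nat.succ_pos q)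
    have hi : ∀ i, IsIntegral ℤ (al q ω e i) := fun i => (hωi.pow _).mul (he.pow _)
    have hi' : ∀ i, IsIntegral ℤ (al q ω e i)⁻¹ := by
      intro i
      unfold al
      rw [mul_inv, ← inv_pow, ← inv_pow]
      exact (hωi'.pow _).mul (he'.pow _)
    exact ⟨liftLoc (fX p ζ (al q ω e)) (algebraMap (Crv p ζ (al q ω e)) L) hx1,
      fun b => liftLoc_toLoc _ _ _ _,
      fun s => sym_mem_unramified _ hζ hi hi' (al_ne_zero hω he0) s⟩
  · intro K _ _ e₀ he he' he0 hne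
    exact exists_pow he he' hne he0 _

end Pool.Agent.TH265.V
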