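import Pool.Agent.TH265.V.Det
set_option autoImplicit false

/-!
The equation `(1 - y^(p+1)) (1 - x^(q+1)) (1 - (x/e)^(q+1)) = 1` and its smooth points.
-/

namespace Pool.Agent.TH265.V

open Pool.Agent.TH826.MH (eqn)

section

variable {K : Type*} [Field K] (p q : ℕ) (e : K)

/-- The polynomial `(1 - y^(p+1)) (1 - x^(q+1)) (1 - (x/e)^(q+1)) - 1` (`y`, `x` are the variables
number `0`, `1`). -/
noncomputable def poly : MvPolynomial (Fin (1 + 1)) K :=
  (1 - MvPolynomial.X 0 ^ (p + 1)) * ((1 - MvPolynomial.X 1 ^ (q + 1)) *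
    (1 - MvPolynomial.C (e ^ (q + 1))⁻¹ * MvPolynomial.X 1 ^ (q + 1))) - 1

/-- At each complex point over `ρ` of the curve `f = 0` with `x ≠ 0` some derivative of `f` does
not vanish. -/
def SmoothOff (f : MvPolynomial (Fin (1 + 1)) K) (ρ : K →+* ℂ) : Prop :=
  ∀ x : Fin (1 + 1) → ℂ, f.eval₂ ρ x = 0 → x 1 ≠ 0 →
    ∃ k, (MvPolynomial.pderiv k f).eval₂ ρ x ≠ 0

theorem pderiv_zero_poly : MvPolynomial.pderiv 0 (poly p q e) =
    -(((p : MvPolynomial (Fin (1 + 1)) K) + 1) * MvPolynomial.X 0 ^ p) *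
      ((1 - MvPolynomial.X 1 ^ (q + 1)) *
      (1 - MvPolynomial.C (e ^ (q + 1))⁻¹ * MvPolynomial.X 1 ^ (q + 1))) := by
  have h10 : MvPolynomial.pderiv (0 : Fin (1 + 1)) (MvPolynomial.X 1 : MvPolynomial _ K) = 0 :=
    MvPolynomial.pderiv_X_of_ne (by decide)
  have h00 : MvPolynomial.pderiv (0 : Fin (1 + 1)) (MvPolynomial.X 0 : MvPolynomial _ K) = 1 :=
    MvPolynomial.pderiv_X_self 0
  unfold poly
  simp only [map_sub, MvPolynomial.pderiv_mul, MvPolynomial.pderiv_pow, h10, h00,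
    MvPolynomial.pderiv_C, MvPolynomial.pderiv_one]
  simp only [Nat.add_sub_cancel, mul_zero, zero_mul, sub_zero, add_zero, mul_one]
  push_cast
  ring

theorem pderiv_one_poly : MvPolynomial.pderiv 1 (poly p q e) =
    -((1 - MvPolynomial.X 0 ^ (p + 1)) *
      (((q : MvPolynomial (Fin (1 + 1)) K) + 1) * MvPolynomial.X 1 ^ q) *
      ((1 - MvPolynomial.C (e ^ (q + 1))⁻¹ * MvPolynomial.X 1 ^ (q + 1)) +
        MvPolynomial.C (e ^ (q + 1))⁻¹ * (1 - MvPolynomial.X 1 ^ (q + 1)))) := by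
  have h10 : MvPolynomial.pderiv (1 : Fin (1 + 1)) (MvPolynomial.X 0 : MvPolynomial _ K) = 0 :=
    MvPolynomial.pderiv_X_of_ne (by decide)
  have h00 : MvPolynomial.pderiv (1 : Fin (1 + 1)) (MvPolynomial.X 1 : MvPolynomial _ K) = 1 :=
    MvPolynomial.pderiv_X_self 1
  unfold poly
  simp only [map_sub, MvPolynomial.pderiv_mul, MvPolynomial.pderiv_pow, h10, h00,
    MvPolynomial.pderiv_C, MvPolynomial.pderiv_one]
  simp only [Nat.add_sub_cancel, mul_zero, zero_mul, sub_zero, add_zero, mul_one]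
  push_cast
  ring

variable {p q e}

theorem smoothOff (he : e ^ (q + 1) ≠ -1) (ρ : K →+* ℂ) :
    SmoothOff (poly p q e) ρ := by
  intro x hx hx1
  by_contra hcon
  push Not at hcon
  have h0 := hcon 0
  have h1 := hcon 1
  set U : ℂ := ρ (e ^ (q + 1))⁻¹ with hU
  rw [pderiv_zero_poly] at h0
  rw [pderiv_one_poly] at h1
  unfold poly at hx
  simp only [MvPolynomial.eval₂_sub, MvPolynomial.eval₂_mul, MvPolynomial.eval₂_neg,
    MvPolynomial.eval₂_add, MvPolynomial.eval₂_pow, MvPolynomial.eval₂_X, MvPolynomial.eval₂_C,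
    MvPolynomial.eval₂_one, MvPolynomial.eval₂_natCast, ← hU] at hx h0 h1
  set T : ℂ := x 1 ^ (q + 1) with hT
  have hT0 : T ≠ 0 := pow_ne_zero _ hx1
  have hQ : (1 - T) * (1 - U * T) ≠ 0 := by
    intro h
    rw [h, mul_zero, zero_sub] at hx
    norm_num at hx
  have hy : x 0 = 0 := by
    have hp1 : ((p : ℂ) + 1) ≠ 0 := Nat.cast_add_one_ne_zero p
    have h2 := (mul_eq_zero.1 h0).resolve_right hQ
    rw [neg_eq_zero] at h2
    exact eq_zero_of_pow_eq_zero ((mul_eq_zero.1 h2).resolve_left hp1)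
  rw [hy, zero_pow (Nat.succ_ne_zero p)] at hx h1
  have hUT : U * T = 1 + U := by
    have h3 : T * (U * T - (1 + U)) = 0 := by linear_combination hx
    have h4 := (mul_eq_zero.1 h3).resolve_left hT0
    linear_combination h4
  have hq1 : ((q : ℂ) + 1) ≠ 0 := Nat.cast_add_one_ne_zero q
  have h5 : 1 + U = 0 := by
    have h6 : (((q : ℂ) + 1) * x 1 ^ q) * (1 + U) = 0 := by
      linear_combination h1 + 2 * (((q : ℂ) + 1) * x 1 ^ q) * (-hUT)
    refine (mul_eq_zero.1 h6).resolve_left (mul_ne_zero hq1 (pow_ne_zero _ hx1))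
  apply he
  have h7 : ρ (e ^ (q + 1))⁻¹ = ρ (-1) := by
    rw [← hU, map_neg, map_one]
    linear_combination h5
  have h8 := ρ.injective h7
  rw [inv_eq_iff_eq_inv] at h8
  rw [h8]
  norm_num

end

section eqn

variable {K : Type*} [Field K] {p q : ℕ} {ζ ω e : K}

theorem prod_roots2 {F : Type*} [CommRing F] [IsDomain F] {z : F}
    (hz : IsPrimitiveRoot z (q + 1)) (x y : F) :
    ∏ j : Fin (q + 1), (x - z ^ (j : ℕ) * y) = x ^ (q + 1) - y ^ (q + 1) := by
  classical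
  have h1 := hz.pow_sub_pow_eq_prod_sub_mul x y (Nat.succ_pos q)
  have hset : Polynomial.nthRootsFinset (q + 1) (1 : F) =
      Finset.univ.image fun j : Fin (q + 1) => z ^ (j : ℕ) := by
    ext ξ
    rw [Polynomial.mem_nthRootsFinset (Nat.succ_pos q), Finset.mem_image]
    constructor
    · intro h
      obtain ⟨i, hi, rfl⟩ := hz.eq_pow_of_pow_eq_one h
      exact ⟨⟨i, hi⟩, Finset.mem_univ _, rfl⟩
    · rintro ⟨j, -, rfl⟩
      rw [← pow_mul, mul_comm, pow_mul, hz.pow_eq_one, one_pow]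
  rw [h1, hset, Finset.prod_image]
  intro i _ j _ hij
  exact Fin.ext (hz.pow_inj i.isLt j.isLt hij)

theorem al_ne_zero (hω : IsPrimitiveRoot ω (q + 1)) (he0 : e ≠ 0) (i : Fin (2 * q + 1 + 1)) :
    al q ω e i ≠ 0 :=
  mul_ne_zero (pow_ne_zero _ (hω.ne_zero (Nat.succ_ne_zero q))) (pow_ne_zero _ he0)

theorem prod_al (hω : IsPrimitiveRoot ω (q + 1)) (he0 : e ≠ 0) :
    ∏ i : Fin (2 * q + 1 + 1), (1 - MvPolynomial.C (al q ω e i)⁻¹ * MvPolynomial.X 1 :
      MvPolynomial (Fin (1 + 1)) K) =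
      (1 - MvPolynomial.X 1 ^ (q + 1)) *
        (1 - MvPolynomial.C (e ^ (q + 1))⁻¹ * MvPolynomial.X 1 ^ (q + 1)) := by
  have hω' : IsPrimitiveRoot (MvPolynomial.C ω⁻¹ : MvPolynomial (Fin (1 + 1)) K) (q + 1) :=
    hω.inv.map_of_injective (MvPolynomial.C_injective _ _)
  have h1 := prod_roots2 hω' 1 (MvPolynomial.X 1)
  have h2 := prod_roots2 hω' 1 (MvPolynomial.C e⁻¹ * MvPolynomial.X 1)
  rw [one_pow] at h1 h2
  rw [mul_pow, ← map_pow, inv_pow] at h2
  set F : ℕ → MvPolynomial (Fin (1 + 1)) K := fun i =>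
    1 - MvPolynomial.C (ω ^ i * e ^ (i / (q + 1)))⁻¹ * MvPolynomial.X 1 with hF
  have h3 : ∏ i : Fin (2 * q + 1 + 1), (1 - MvPolynomial.C (al q ω e i)⁻¹ * MvPolynomial.X 1 :
      MvPolynomial (Fin (1 + 1)) K) = ∏ i ∈ Finset.range (2 * q + 1 + 1), F i :=
    Fin.prod_univ_eq_prod_range F _
  have h5 : ∏ i ∈ Finset.range (2 * q + 1 + 1), F i =
      (∏ i ∈ Finset.range (q + 1), F i) * ∏ i ∈ Finset.range (q + 1), F (q + 1 + i) := by
    rw [show 2 * q + 1 + 1 = (q + 1) + (q + 1) by ring, Finset.prod_range_add]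
  have h6 : ∏ i ∈ Finset.range (q + 1), F i = 1 - MvPolynomial.X 1 ^ (q + 1) := by
    rw [← h1, ← Fin.prod_univ_eq_prod_range F]
    refine Finset.prod_congr rfl fun i _ => ?_
    simp only [hF]
    rw [Nat.div_eq_of_lt i.isLt, pow_zero, mul_one, ← map_pow, inv_pow]
  have h7 : ∏ i ∈ Finset.range (q + 1), F (q + 1 + i) =
      1 - MvPolynomial.C (e ^ (q + 1))⁻¹ * MvPolynomial.X 1 ^ (q + 1) := by
    rw [← h2, ← Fin.prod_univ_eq_prod_range (fun i => F (q + 1 + i))]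
    refine Finset.prod_congr rfl fun i _ => ?_
    have h4 : (q + 1 + (i : ℕ)) / (q + 1) = 1 := by
      rw [Nat.div_eq_iff (by omega)]
      have := i.isLt
      omega
    simp only [hF]
    rw [h4, pow_one, pow_add, hω.pow_eq_one, one_mul, mul_inv, map_mul, ← map_pow, inv_pow,
      mul_assoc]
  rw [h3, h5, h6, h7]

theorem eqn_al (hζ : IsPrimitiveRoot ζ (p + 1)) (hω : IsPrimitiveRoot ω (q + 1)) (he0 : e ≠ 0) :
    eqn (lm (al q ω e)) (rts p ζ (al q ω e)) = poly p q e := by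
  rw [eqn_eq hζ (al_ne_zero hω he0), prod_al hω he0]
  rfl

theorem al_injective (hω : IsPrimitiveRoot ω (q + 1)) (σ : K →+* ℂ) (he : 1 < ‖σ e‖) :
    Function.Injective (al q ω e) := by
  intro i j hij
  have hωσ : IsPrimitiveRoot (σ ω) (q + 1) := hω.map_of_injective σ.injective
  have h1 : ∀ k, σ (al q ω e k) = al q (σ ω) (σ e) k := by
    intro k
    unfold al
    rw [map_mul, map_pow, map_pow]
  have h2 := congrArg (fun x => ‖σ x‖) hij
  simp only [h1, norm_al hωσ] at h2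
  have h3 : (i : ℕ) / (q + 1) = (j : ℕ) / (q + 1) :=
    pow_right_injective₀ (by linarith) he.ne' h2
  have he0 : e ≠ 0 := by
    rintro rfl
    rw [map_zero, norm_zero] at he
    linarith
  unfold al at hij
  rw [h3] at hij
  have h4 := mul_right_cancel₀ (pow_ne_zero _ he0) hij
  rw [pow_mod' hω, pow_mod' hω (j : ℕ)] at h4
  have h5 := hω.pow_inj (Nat.mod_lt _ (Nat.succ_pos q)) (Nat.mod_lt _ (Nat.succ_pos q)) h4
  apply Fin.ext
  rw [← Nat.mod_add_div (i : ℕ) (q + 1), ← Nat.mod_add_div (j : ℕ) (q + 1), h5, h3]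
where
  pow_mod' {K : Type _} [Field K] {w : K} {q : ℕ} (hw : IsPrimitiveRoot w (q + 1)) (i : ℕ) :
      w ^ i = w ^ (i % (q + 1)) := by
    conv_lhs => rw [← Nat.mod_add_div i (q + 1)]
    rw [pow_add, pow_mul, hw.pow_eq_one, one_pow, mul_one]

end eqn

end Pool.Agent.TH265.V
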